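import Mathlib

/-!
# Chains over `ZMod 2`, acyclicity, gluing

helper51 for MP_c0e710_co (chordal graphs).
-/

namespace Pool.Agent.Helper51.PC

open Finset

variable {α : Type*} [Fintype α] [DecidableEq α]

/-- The boundary of a chain modulo two. -/
def bd (z : Finset α → ZMod 2) : Finset α → ZMod 2 :=
  fun τ => ∑ a ∈ univ.filter (fun a => a ∉ τ), z (insert a τ)

/-- `z` is a chain of faces of `K` with `j` vertices. -/
def Supp (K : Finset α → Prop) (j : ℕ) (z : Finset α → ZMod 2) : Prop :=
  ∀ σ, z σ ≠ 0 → K σ ∧ σ.card = j

/-- `K` is exact at all levels below `t`. -/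
def Acyc (K : Finset α → Prop) (t : ℕ) : Prop :=
  ∀ j, j < t → ∀ z, Supp K j z → bd z = 0 → ∃ y, Supp K (j + 1) y ∧ bd y = z

theorem zmod2_add_self (a : ZMod 2) : a + a = 0 := by
  revert a; decide

theorem Acyc.mono {K : Finset α → Prop} {t t' : ℕ} (h : Acyc K t) (ht : t' ≤ t) : Acyc K t' :=
  fun j hj z hz hb => h j (lt_of_lt_of_le hj ht) z hz hb

theorem bd_add (y z : Finset α → ZMod 2) : bd (y + z) = bd y + bd z := by
  funext τ
  simp [bd, Finset.sum_add_distrib]

/-- The join of a vertex with a chain. -/
def jn (w : α) (y : Finset α → ZMod 2) : Finset α → ZMod 2 :=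
  fun σ => if w ∈ σ then y (σ.erase w) else 0

theorem bd_jn_of_notMem (w : α) (y : Finset α → ZMod 2) (τ : Finset α) (hw : w ∉ τ) :
    bd (jn w y) τ = y τ := by
  unfold bd jn
  rw [Finset.sum_eq_single w]
  · simp [hw]
  · intro b hb hbw
    have h : w ∉ insert b τ := by
      rw [mem_insert]
      rintro (h | h)
      · exact hbw h.symm
      · exact hw h
    rw [if_neg h]
  · intro h
    exact absurd (by simp [hw]) h

theorem bd_jn_of_mem (w : α) (y : Finset α → ZMod 2) (τ : Finset α) (hw : w ∈ τ) :
    bd (jn w y) τ = bd y (τ.erase w) + y τ := by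
  unfold bd jn
  have h1 : (univ.filter fun a => a ∉ τ.erase w) = insert w (univ.filter fun a => a ∉ τ) := by
    ext a
    simp only [mem_filter, mem_univ, true_and, mem_insert, mem_erase, not_and]
    constructor
    · intro h
      by_cases ha : a = w
      · exact Or.inl ha
      · exact Or.inr (h ha)
    · rintro (h | h) h'
      · exact absurd h h'
      · exact h
  rw [h1, Finset.sum_insert (by simp [hw]), insert_erase hw]
  have h2 : ∀ a ∈ univ.filter (fun a => a ∉ τ),
      (if w ∈ insert a τ then y ((insert a τ).erase w) else 0) = y (insert a (τ.erase w)) := by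
    intro a ha
    rw [mem_filter] at ha
    have haw : a ≠ w := by
      rintro rfl
      exact ha.2 hw
    rw [if_pos (mem_insert_of_mem hw), erase_insert_of_ne haw]
  rw [Finset.sum_congr rfl h2]
  have h3 := zmod2_add_self (y τ)
  calc _ = (∑ a ∈ univ.filter (fun a => a ∉ τ), y (insert a (τ.erase w))) + (y τ + y τ) := by
        rw [h3, add_zero]
    _ = _ := by ring

/-- A cone is exact everywhere. -/
theorem Acyc.cone {K : Finset α → Prop} (v : α) (hv : ∀ σ, K σ → K (insert v σ)) (t : ℕ) :
    Acyc K t := by
  intro j _ z hz hb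
  refine ⟨jn v z, ?_, ?_⟩
  · intro σ hσ
    unfold jn at hσ
    split_ifs at hσ with h
    · obtain ⟨h1, h2⟩ := hz _ hσ
      have h3 := hv _ h1
      rw [insert_erase h] at h3
      refine ⟨h3, ?_⟩
      have h4 := card_erase_add_one h
      omega
    · exact absurd rfl hσ
  · funext τ
    by_cases h : v ∈ τ
    · rw [bd_jn_of_mem v z τ h, hb]
      simp
    · exact bd_jn_of_notMem v z τ h

/-- Gluing along the link of a vertex. -/
theorem Acyc.glue {K : Finset α → Prop} (w : α) (t : ℕ)
    (hK : ∀ σ, K (insert w σ) → w ∉ σ → K σ)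
    (h0 : Acyc (fun σ => K σ ∧ w ∉ σ) (t + 1)) (h1 : Acyc (fun σ => K (insert w σ) ∧ w ∉ σ) t) :
    Acyc K (t + 1) := by
  intro j hj z hz hb
  rcases Nat.eq_zero_or_pos j with hj0 | hjpos
  · subst hj0
    have hz' : Supp (fun σ => K σ ∧ w ∉ σ) 0 z := by
      intro σ hσ
      obtain ⟨h2, h3⟩ := hz σ hσ
      refine ⟨⟨h2, ?_⟩, h3⟩
      rw [card_eq_zero] at h3
      rw [h3]
      simp
    obtain ⟨y, hy, hby⟩ := h0 0 (by omega) z hz' hb
    exact ⟨y, fun σ hσ => ⟨(hy σ hσ).1.1, (hy σ hσ).2⟩, hby⟩
  · obtain ⟨i, rfl⟩ : ∃ i, j = i + 1 := ⟨j - 1, by omega⟩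
    set z1 : Finset α → ZMod 2 := fun σ => if w ∈ σ then 0 else z (insert w σ) with hz1
    set z0 : Finset α → ZMod 2 := fun σ => if w ∈ σ then 0 else z σ with hz0
    have hs1 : Supp (fun σ => K (insert w σ) ∧ w ∉ σ) i z1 := by
      intro σ hσ
      simp only [hz1] at hσ
      split_ifs at hσ with h
      · exact absurd rfl hσ
      · obtain ⟨h2, h3⟩ := hz _ hσ
        rw [card_insert_of_notMem h] at h3
        exact ⟨⟨h2, h⟩, by omega⟩
    have hb1 : bd z1 = 0 := by
      funext τ
      by_cases hw : w ∈ τ
      · unfold bd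
        apply Finset.sum_eq_zero
        intro a _
        simp only [hz1]
        rw [if_pos (mem_insert_of_mem hw)]
      · have h2 := congrFun hb (insert w τ)
        unfold bd at h2 ⊢
        have h3 : (univ.filter fun a => a ∉ τ) = insert w (univ.filter fun a => a ∉ insert w τ) := by
          ext a
          simp only [mem_filter, mem_univ, true_and, mem_insert]
          constructor
          · intro h
            by_cases ha : a = w
            · exact Or.inl ha
            · exact Or.inr (by tauto)
          · rintro (h | h)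
            · rw [h]; exact hw
            · tauto
        rw [h3, Finset.sum_insert (by simp)]
        have h4 : z1 (insert w τ) = 0 := by
          simp only [hz1]
          rw [if_pos (mem_insert_self _ _)]
        rw [h4, zero_add]
        refine Eq.trans ?_ h2
        apply Finset.sum_congr rfl
        intro a ha
        rw [mem_filter, mem_insert] at ha
        push Not at ha
        simp only [hz1]
        have h5 : w ∉ insert a τ := by
          rw [mem_insert]
          rintro (h | h)
          · exact ha.2.1 h.symm
          · exact hw h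
        rw [if_neg h5, Finset.insert_comm]
    obtain ⟨y, hy, hby⟩ := h1 i (by omega) z1 hs1 hb1
    have hyw : ∀ σ, w ∈ σ → y σ = 0 := by
      intro σ hσ
      by_contra h
      exact (hy σ h).1.2 hσ
    have hz0w : ∀ τ, w ∉ τ → bd z0 τ = z1 τ := by
      intro τ hw
      have h2 := congrFun hb τ
      unfold bd at h2 ⊢
      have hmem : w ∈ univ.filter (fun a => a ∉ τ) := by simp [hw]
      rw [← Finset.add_sum_erase _ _ hmem] at h2 ⊢
      have h3 : z0 (insert w τ) = 0 := by
        simp only [hz0]
        rw [if_pos (mem_insert_self _ _)]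
      have h4 : ∑ a ∈ (univ.filter fun a => a ∉ τ).erase w, z0 (insert a τ)
          = ∑ a ∈ (univ.filter fun a => a ∉ τ).erase w, z (insert a τ) := by
        apply Finset.sum_congr rfl
        intro a ha
        rw [mem_erase, mem_filter] at ha
        simp only [hz0]
        have h5 : w ∉ insert a τ := by
          rw [mem_insert]
          rintro (h | h)
          · exact ha.1 h.symm
          · exact hw h
        rw [if_neg h5]
      rw [h3, h4, zero_add]
      have h6 : z1 τ = z (insert w τ) := by
        simp only [hz1]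
        rw [if_neg hw]
      rw [h6]
      have h7 := zmod2_add_self (z (insert w τ))
      simp only [Pi.zero_apply] at h2
      calc _ = (∑ a ∈ (univ.filter fun a => a ∉ τ).erase w, z (insert a τ))
            + (z (insert w τ) + z (insert w τ)) := by rw [h7, add_zero]
        _ = (z (insert w τ) + ∑ a ∈ (univ.filter fun a => a ∉ τ).erase w, z (insert a τ))
            + z (insert w τ) := by ring
        _ = _ := by rw [h2, zero_add]
    have hsz : Supp (fun σ => K σ ∧ w ∉ σ) (i + 1) (z0 + y) := by
      intro σ hσ
      by_cases h2 : y σ = 0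
      · simp only [Pi.add_apply, h2, add_zero, hz0] at hσ
        split_ifs at hσ with h
        · exact absurd rfl hσ
        · exact ⟨⟨(hz σ hσ).1, h⟩, (hz σ hσ).2⟩
      · obtain ⟨⟨h3, h4⟩, h5⟩ := hy σ h2
        exact ⟨⟨hK σ h3 h4, h4⟩, h5⟩
    have hbz : bd (z0 + y) = 0 := by
      rw [bd_add, hby]
      funext τ
      simp only [Pi.add_apply, Pi.zero_apply]
      by_cases hw : w ∈ τ
      · have h2 : bd z0 τ = 0 := by
          unfold bd
          apply Finset.sum_eq_zero
          intro a _
          simp only [hz0]
          rw [if_pos (mem_insert_of_mem hw)]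
        have h3 : z1 τ = 0 := by
          simp only [hz1]
          rw [if_pos hw]
        rw [h2, h3, add_zero]
      · rw [hz0w τ hw]
        exact zmod2_add_self _
    obtain ⟨u, hu, hbu⟩ := h0 (i + 1) hj (z0 + y) hsz hbz
    refine ⟨u + jn w y, ?_, ?_⟩
    · intro σ hσ
      by_cases h2 : u σ = 0
      · simp only [Pi.add_apply, h2, zero_add] at hσ
        unfold jn at hσ
        split_ifs at hσ with h
        · obtain ⟨⟨h3, h4⟩, h5⟩ := hy _ hσ
          rw [insert_erase h] at h3
          refine ⟨h3, ?_⟩
          have h6 := card_erase_add_one h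
          omega
        · exact absurd rfl hσ
      · exact ⟨(hu σ h2).1.1, (hu σ h2).2⟩
    · rw [bd_add, hbu]
      funext τ
      simp only [Pi.add_apply]
      by_cases hw : w ∈ τ
      · rw [bd_jn_of_mem w y τ hw, hby, hyw τ hw]
        have h2 : z0 τ = 0 := by
          simp only [hz0]
          rw [if_pos hw]
        have h3 : z1 (τ.erase w) = z τ := by
          simp only [hz1]
          rw [if_neg (notMem_erase _ _), insert_erase hw]
        rw [h2, h3]
        ring
      · rw [bd_jn_of_notMem w y τ hw]
        have h2 : z0 τ = z τ := by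
          simp only [hz0]
          rw [if_neg hw]
        rw [h2, add_assoc, zmod2_add_self, add_zero]

end Pool.Agent.Helper51.PC
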