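import Pool.Agent.Helper51.PC.Hall

/-!
# Acyclicity of the complex of capacitated independent colour classes, chordal graphs

helper51 for MP_c0e710_co (chordal graphs).
-/

namespace Pool.Agent.Helper51.PC

open Finset

variable {V C : Type*} [Fintype V] [DecidableEq V] [Fintype C] [DecidableEq C]

/-- Sets of pairs (vertex, colour) inside `A` such that every colour class is independent in the
graph of its colour and has at most `q c` vertices. -/
def Kc (G : C → SimpleGraph V) (A : Finset (V × C)) (q : C → ℕ) (σ : Finset (V × C)) : Prop :=
  σ ⊆ A ∧ (∀ a ∈ σ, ∀ b ∈ σ, a.2 = b.2 → ¬ (G a.2).Adj a.1 b.1) ∧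
    ∀ c, (σ.filter (fun a => a.2 = c)).card ≤ q c

open Classical in
/-- The closed neighbourhood of the pair `w` in `A`, within its colour. -/
noncomputable def nb (G : C → SimpleGraph V) (A : Finset (V × C)) (w : V × C) : Finset (V × C) :=
  A.filter (fun a => a.2 = w.2 ∧ (a.1 = w.1 ∨ (G w.2).Adj w.1 a.1))

theorem mem_nb {G : C → SimpleGraph V} {A : Finset (V × C)} {w a : V × C} :
    a ∈ nb G A w ↔ a ∈ A ∧ a.2 = w.2 ∧ (a.1 = w.1 ∨ (G w.2).Adj w.1 a.1) := by
  classical
  unfold nb
  simp only [mem_filter]

theorem nb_erase (G : C → SimpleGraph V) (A : Finset (V × C)) (w W : V × C) :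
    nb G (A.erase W) w = (nb G A w).erase W := by
  ext a
  rw [mem_nb, mem_erase, mem_erase, mem_nb]
  tauto

theorem filter_erase_ne (A : Finset (V × C)) (W : V × C) (c : C) (h : c ≠ W.2) :
    (A.erase W).filter (fun a => a.2 = c) = A.filter (fun a => a.2 = c) := by
  ext a
  simp only [mem_filter, mem_erase]
  constructor
  · rintro ⟨⟨_, h1⟩, h2⟩
    exact ⟨h1, h2⟩
  · rintro ⟨h1, h2⟩
    refine ⟨⟨?_, h1⟩, h2⟩
    rintro rfl
    exact h h2.symm

theorem filter_erase_eq (A : Finset (V × C)) (W : V × C) (c : C) :
    (A.erase W).filter (fun a => a.2 = c) = (A.filter (fun a => a.2 = c)).erase W := by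
  ext a
  simp only [mem_filter, mem_erase]
  tauto

theorem Kc_down {G : C → SimpleGraph V} {A : Finset (V × C)} {q : C → ℕ} {σ τ : Finset (V × C)}
    (h : Kc G A q σ) (hτ : τ ⊆ σ) : Kc G A q τ :=
  ⟨fun _ ha => h.1 (hτ ha), fun a ha b hb => h.2.1 a (hτ ha) b (hτ hb),
    fun c => (card_le_card (filter_subset_filter _ hτ)).trans (h.2.2 c)⟩

theorem Kc_erase {G : C → SimpleGraph V} {A : Finset (V × C)} {q : C → ℕ} {W : V × C}
    (σ : Finset (V × C)) : Kc G (A.erase W) q σ ↔ Kc G A q σ ∧ W ∉ σ := by
  constructor
  · rintro ⟨h1, h2, h3⟩
    exact ⟨⟨fun a ha => mem_of_mem_erase (h1 ha), h2, h3⟩, fun h => notMem_erase W A (h1 h)⟩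
  · rintro ⟨⟨h1, h2, h3⟩, h4⟩
    refine ⟨fun a ha => mem_erase.mpr ⟨?_, h1 ha⟩, h2, h3⟩
    rintro rfl
    exact h4 ha

theorem Kc_link {G : C → SimpleGraph V} {A : Finset (V × C)} {q : C → ℕ} {W : V × C}
    (hW : W ∈ A) (hq : 1 ≤ q W.2) (σ : Finset (V × C)) :
    Kc G (A \ nb G A W) (Function.update q W.2 (q W.2 - 1)) σ ↔
      Kc G A q (insert W σ) ∧ W ∉ σ := by
  have hWn : W ∈ nb G A W := mem_nb.mpr ⟨hW, rfl, Or.inl rfl⟩
  constructor
  · rintro ⟨h1, h2, h3⟩
    have hWσ : W ∉ σ := by
      intro h
      exact (mem_sdiff.mp (h1 h)).2 hWn
    have hadj : ∀ b ∈ σ, b.2 = W.2 → ¬ (G W.2).Adj W.1 b.1 := by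
      intro b hb hbW hadj
      have h4 := mem_sdiff.mp (h1 hb)
      exact h4.2 (mem_nb.mpr ⟨h4.1, hbW, Or.inr hadj⟩)
    refine ⟨⟨?_, ?_, ?_⟩, hWσ⟩
    · intro a ha
      rcases mem_insert.mp ha with rfl | ha
      · exact hW
      · exact (mem_sdiff.mp (h1 ha)).1
    · intro a ha b hb hab
      rcases mem_insert.mp ha with haW | ha2
      · rcases mem_insert.mp hb with hbW | hb2
        · rw [haW, hbW]
          exact SimpleGraph.irrefl _
        · rw [haW] at hab ⊢
          exact hadj b hb2 hab.symm
      · rcases mem_insert.mp hb with hbW | hb2
        · intro h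
          rw [hbW] at hab h
          rw [hab] at h
          exact hadj a ha2 hab h.symm
        · exact h2 a ha2 b hb2 hab
    · intro c
      by_cases hc : c = W.2
      · subst hc
        have h4 := h3 W.2
        rw [Function.update_self] at h4
        rw [filter_insert, if_pos rfl, card_insert_of_notMem]
        · omega
        · rw [mem_filter]
          exact fun h => hWσ h.1
      · have h4 := h3 c
        rw [Function.update_of_ne hc] at h4
        rw [filter_insert, if_neg (fun h => hc h.symm)]
        exact h4
  · rintro ⟨⟨h1, h2, h3⟩, h4⟩
    refine ⟨?_, ?_, ?_⟩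
    · intro a ha
      rw [mem_sdiff]
      refine ⟨h1 (mem_insert_of_mem ha), ?_⟩
      intro h5
      obtain ⟨_, h6, h7 | h7⟩ := mem_nb.mp h5
      · have : a = W := Prod.ext h7 h6
        rw [this] at ha
        exact h4 ha
      · exact h2 W (mem_insert_self _ _) a (mem_insert_of_mem ha) h6.symm h7
    · intro a ha b hb
      exact h2 a (mem_insert_of_mem ha) b (mem_insert_of_mem hb)
    · intro c
      by_cases hc : c = W.2
      · subst hc
        have h5 := h3 W.2
        rw [filter_insert, if_pos rfl, card_insert_of_notMem] at h5
        · rw [Function.update_self]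
          omega
        · rw [mem_filter]
          exact fun h => h4 h.1
      · have h5 := h3 c
        rw [filter_insert, if_neg (fun h => hc h.symm)] at h5
        rw [Function.update_of_ne hc]
        exact h5

/-- Acyclicity from weights with closed neighbourhood sums at most one. -/
theorem acyc_main (G : C → SimpleGraph V)
    (hG : ∀ c, ∀ S : Finset V, S.Nonempty → ∃ v ∈ S, ∀ a ∈ S, ∀ b ∈ S,
      (G c).Adj v a → (G c).Adj v b → a ≠ b → (G c).Adj a b) (n : ℕ) :
    ∀ A : Finset (V × C), A.card = n → ∀ (q t : C → ℕ) (x : V × C → ℝ), (∀ a ∈ A, 0 ≤ x a) →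
      (∀ w ∈ A, ∑ a ∈ nb G A w, x a ≤ 1) → (∀ c, t c ≤ q c) →
      (∀ c, (t c : ℝ) < ∑ a ∈ A.filter (fun a => a.2 = c), x a + 1) →
      Acyc (Kc G A q) (∑ c, t c) := by
  induction n using Nat.strong_induction_on with
  | _ n ih =>
    intro A hA q t x hx0 hx1 htq ht
    by_cases hT : ∑ c, t c = 0
    · rw [hT]
      intro j hj
      omega
    obtain ⟨c, _, hc⟩ := Finset.exists_ne_zero_of_sum_ne_zero hT
    have hc1 : 1 ≤ t c := by omega
    have hqc : 1 ≤ q c := hc1.trans (htq c)
    have hsum : ∑ c', t c' = ∑ c', Function.update t c (t c - 1) c' + 1 := by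
      have h1 := Finset.sum_update_of_mem (mem_univ c) t (t c - 1)
      rw [h1, ← Finset.add_sum_erase _ t (mem_univ c), sdiff_singleton_eq_erase]
      omega
    -- the link of a pair of colour `c`
    have take : ∀ W ∈ A, W.2 = c → Acyc (fun σ => Kc G A q (insert W σ) ∧ W ∉ σ)
        (∑ c', Function.update t c (t c - 1) c') := by
      intro W hW hWc
      have hWn : W ∈ nb G A W := mem_nb.mpr ⟨hW, rfl, Or.inl rfl⟩
      have hsub : nb G A W ⊆ A := fun a ha => (mem_nb.mp ha).1
      have hcard : (A \ nb G A W).card < n := by
        rw [← hA]
        apply card_lt_card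
        refine ⟨sdiff_subset, fun h => ?_⟩
        exact (mem_sdiff.mp (h hW)).2 hWn
      have h1 := ih _ hcard (A \ nb G A W) rfl (Function.update q c (q c - 1))
        (Function.update t c (t c - 1)) x (fun a ha => hx0 a (mem_sdiff.mp ha).1) ?_ ?_ ?_
      · have h2 : Kc G (A \ nb G A W) (Function.update q c (q c - 1))
            = fun σ => Kc G A q (insert W σ) ∧ W ∉ σ := by
          funext σ
          rw [← hWc]
          exact propext (Kc_link hW (by rw [hWc]; exact hqc) σ)
        rw [← h2]
        exact h1
      · intro w hw
        refine le_trans ?_ (hx1 w (mem_sdiff.mp hw).1)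
        apply Finset.sum_le_sum_of_subset_of_nonneg
        · intro a ha
          rw [mem_nb] at ha ⊢
          exact ⟨(mem_sdiff.mp ha.1).1, ha.2⟩
        · intro a ha _
          exact hx0 a (mem_nb.mp ha).1
      · intro c'
        by_cases h : c' = c
        · subst h
          rw [Function.update_self, Function.update_self]
          have := htq c'
          omega
        · rw [Function.update_of_ne h, Function.update_of_ne h]
          exact htq c'
      · intro c'
        by_cases h : c' = c
        · subst h
          rw [Function.update_self]
          have h3 : ∑ a ∈ A.filter (fun a => a.2 = c'), x a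
              = ∑ a ∈ (A \ nb G A W).filter (fun a => a.2 = c'), x a + ∑ a ∈ nb G A W, x a := by
            rw [← Finset.sum_union]
            · apply Finset.sum_congr _ (fun _ _ => rfl)
              ext a
              simp only [mem_union, mem_filter, mem_sdiff]
              constructor
              · rintro ⟨h4, h5⟩
                by_cases h6 : a ∈ nb G A W
                · exact Or.inr h6
                · exact Or.inl ⟨⟨h4, h6⟩, h5⟩
              · rintro (⟨⟨h4, _⟩, h5⟩ | h4)
                · exact ⟨h4, h5⟩
                · exact ⟨hsub h4, (mem_nb.mp h4).2.1.trans hWc⟩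
            · rw [Finset.disjoint_left]
              intro a ha
              rw [mem_filter, mem_sdiff] at ha
              exact ha.1.2
          have h4 := ht c'
          have h5 := hx1 W hW
          rw [h3] at h4
          push_cast [Nat.cast_sub hc1]
          linarith
        · rw [Function.update_of_ne h]
          have h3 : (A \ nb G A W).filter (fun a => a.2 = c') = A.filter (fun a => a.2 = c') := by
            ext a
            simp only [mem_filter, mem_sdiff]
            constructor
            · rintro ⟨⟨h4, _⟩, h5⟩
              exact ⟨h4, h5⟩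
            · rintro ⟨h4, h5⟩
              refine ⟨⟨h4, fun h6 => h ?_⟩, h5⟩
              rw [← h5, (mem_nb.mp h6).2.1, hWc]
          rw [h3]
          exact ht c'
    -- deletion of a pair
    have del : ∀ W ∈ A, ∀ x' : V × C → ℝ, (∀ a ∈ A.erase W, 0 ≤ x' a) →
        (∀ w ∈ A.erase W, ∑ a ∈ nb G (A.erase W) w, x' a ≤ 1) →
        (∀ c, (t c : ℝ) < ∑ a ∈ (A.erase W).filter (fun a => a.2 = c), x' a + 1) →
        Acyc (fun σ => Kc G A q σ ∧ W ∉ σ) (∑ c', t c') := by
      intro W hW x' h1 h2 h3
      have hcard : (A.erase W).card < n := by
        rw [← hA]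
        exact card_erase_lt_of_mem hW
      have h4 := ih _ hcard (A.erase W) rfl q t x' h1 h2 htq h3
      have h5 : Kc G (A.erase W) q = fun σ => Kc G A q σ ∧ W ∉ σ := by
        funext σ
        exact propext (Kc_erase σ)
      rw [← h5]
      exact h4
    have glue : ∀ W ∈ A, W.2 = c → Acyc (fun σ => Kc G A q σ ∧ W ∉ σ) (∑ c', t c') →
        Acyc (Kc G A q) (∑ c', t c') := by
      intro W hW hWc h1
      rw [hsum] at h1 ⊢
      exact Acyc.glue W _ (fun σ h _ => Kc_down h (subset_insert _ _)) h1 (take W hW hWc)
    by_cases hE : ∃ u w, (u, c) ∈ A ∧ (w, c) ∈ A ∧ (G c).Adj u w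
    · -- an edge in colour `c`
      classical
      obtain ⟨u0, w0, hu0, hw0, huw0⟩ := hE
      set B : Finset V := univ.filter (fun v => (v, c) ∈ A ∧ ∃ u, (u, c) ∈ A ∧ (G c).Adj v u) with hB
      have hBne : B.Nonempty := ⟨u0, by rw [hB, mem_filter]; exact ⟨mem_univ _, hu0, w0, hw0, huw0⟩⟩
      obtain ⟨v, hvB, hv⟩ := hG c B hBne
      rw [hB, mem_filter] at hvB
      obtain ⟨_, hvA, w, hwA, hvw⟩ := hvB
      have hVW : (v, c) ≠ (w, c) := by
        intro h
        have := congrArg Prod.fst h
        simp only at this
        rw [this] at hvw
        exact SimpleGraph.irrefl _ hvw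
      apply glue (w, c) hwA rfl
      have hx' : ∀ a ∈ A, 0 ≤ (if a = (v, c) then x a + x (w, c) else x a) := by
        intro a ha
        split_ifs
        · exact add_nonneg (hx0 a ha) (hx0 _ hwA)
        · exact hx0 a ha
      -- transfer of weight
      have hsumx : ∀ S : Finset (V × C), (v, c) ∈ S → (w, c) ∈ S →
          ∑ a ∈ S.erase (w, c), (if a = (v, c) then x a + x (w, c) else x a) = ∑ a ∈ S, x a := by
        intro S hvS hwS
        have h1 : ∀ a, (if a = (v, c) then x a + x (w, c) else x a)
            = x a + (if a = (v, c) then x (w, c) else 0) := by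
          intro a
          split_ifs <;> ring
        rw [Finset.sum_congr rfl (fun a _ => h1 a), Finset.sum_add_distrib, Finset.sum_ite_eq',
          if_pos (mem_erase.mpr ⟨hVW, hvS⟩), Finset.sum_erase_add _ _ hwS]
      have hsumx' : ∀ S : Finset (V × C), (v, c) ∉ S →
          ∑ a ∈ S, (if a = (v, c) then x a + x (w, c) else x a) = ∑ a ∈ S, x a := by
        intro S hvS
        apply Finset.sum_congr rfl
        intro a ha
        rw [if_neg]
        rintro rfl
        exact hvS ha
      apply del (w, c) hwA (fun a => if a = (v, c) then x a + x (w, c) else x a)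
        (fun a ha => hx' a (mem_of_mem_erase ha))
      · intro w' hw'
        rw [mem_erase] at hw'
        rw [nb_erase]
        by_cases hvn : (v, c) ∈ nb G A w'
        · have hwn : (w, c) ∈ nb G A w' := by
            obtain ⟨_, h2, h3⟩ := mem_nb.mp hvn
            simp only at h2 h3
            rw [mem_nb]
            refine ⟨hwA, h2, ?_⟩
            simp only
            rw [← h2] at h3 ⊢
            right
            rcases h3 with h3 | h3
            · rw [← h3]
              exact hvw
            · have hw'B : w'.1 ∈ B := by
                rw [hB, mem_filter]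
                refine ⟨mem_univ _, ?_, v, hvA, h3⟩
                have : w' = (w'.1, c) := by
                  rw [h2]
                rw [← this]
                exact hw'.2
              have hwB : w ∈ B := by
                rw [hB, mem_filter]
                exact ⟨mem_univ _, hwA, v, hvA, hvw.symm⟩
              apply hv w'.1 hw'B w hwB h3.symm hvw
              intro h4
              apply hw'.1
              exact Prod.ext h4 h2.symm
          rw [hsumx _ hvn hwn]
          exact hx1 w' hw'.2
        · rw [hsumx' _ (fun h => hvn (mem_of_mem_erase h))]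
          refine le_trans ?_ (hx1 w' hw'.2)
          apply Finset.sum_le_sum_of_subset_of_nonneg (erase_subset _ _)
          intro a ha _
          exact hx0 a (mem_nb.mp ha).1
      · intro c'
        by_cases h : c' = c
        · subst h
          rw [filter_erase_eq, hsumx (A.filter (fun a => a.2 = c')) (mem_filter.mpr ⟨hvA, rfl⟩)
            (mem_filter.mpr ⟨hwA, rfl⟩)]
          exact ht c'
        · rw [filter_erase_ne _ _ _ h, hsumx']
          · exact ht c'
          · rw [mem_filter]
            exact fun h1 => h h1.2.symm
    · -- no edge in colour `c`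
      push Not at hE
      by_cases hcard : (A.filter (fun a => a.2 = c)).card ≤ t c
      · -- a cone
        have hne : (A.filter (fun a => a.2 = c)).Nonempty := by
          rw [nonempty_iff_ne_empty]
          intro h
          have h1 := ht c
          rw [h, Finset.sum_empty, zero_add] at h1
          have h2 : (1 : ℝ) ≤ t c := by exact_mod_cast hc1
          linarith
        obtain ⟨a, ha⟩ := hne
        rw [mem_filter] at ha
        apply Acyc.cone a
        rintro σ ⟨h1, h2, h3⟩
        have hsub : insert a σ ⊆ A := by
          intro b hb
          rcases mem_insert.mp hb with rfl | hb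
          · exact ha.1
          · exact h1 hb
        refine ⟨hsub, ?_, ?_⟩
        · intro b hb d hd hbd
          by_cases hbc : b.2 = c
          · have hb' : (b.1, c) ∈ A := by
              have : b = (b.1, c) := Prod.ext rfl hbc
              rw [← this]
              exact hsub hb
            have hd' : (d.1, c) ∈ A := by
              have : d = (d.1, c) := Prod.ext rfl (hbd.symm.trans hbc)
              rw [← this]
              exact hsub hd
            rw [hbc]
            exact hE _ _ hb' hd'
          · have hb' : b ∈ σ := by
              rcases mem_insert.mp hb with rfl | hb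
              · exact absurd ha.2 hbc
              · exact hb
            have hd' : d ∈ σ := by
              rcases mem_insert.mp hd with rfl | hd
              · exact absurd (hbd.trans ha.2) hbc
              · exact hd
            exact h2 b hb' d hd' hbd
        · intro c'
          by_cases h : c' = c
          · subst h
            exact ((card_le_card (filter_subset_filter _ hsub)).trans hcard).trans (htq c')
          · rw [filter_insert, if_neg]
            · exact h3 c'
            · rw [ha.2]
              exact fun h4 => h h4.symm
      · push Not at hcard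
        have hne : (A.filter (fun a => a.2 = c)).Nonempty := by
          rw [← card_pos]
          omega
        obtain ⟨W, hW⟩ := hne
        have hW' := mem_filter.mp hW
        apply glue W hW'.1 hW'.2
        apply del W hW'.1 (fun a => if a.2 = c then 1 else x a)
        · intro a ha
          split_ifs
          · exact zero_le_one
          · exact hx0 a (mem_of_mem_erase ha)
        · intro w hw
          rw [mem_erase] at hw
          by_cases hwc : w.2 = c
          · have h1 : nb G (A.erase W) w ⊆ {w} := by
              intro a ha
              rw [mem_singleton]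
              obtain ⟨h2, h3, h4 | h4⟩ := mem_nb.mp ha
              · exact Prod.ext h4 h3
              · exfalso
                have h5 : (w.1, c) ∈ A := by
                  have : w = (w.1, c) := Prod.ext rfl hwc
                  rw [← this]
                  exact hw.2
                have h6 : (a.1, c) ∈ A := by
                  have : a = (a.1, c) := Prod.ext rfl (h3.trans hwc)
                  rw [← this]
                  exact mem_of_mem_erase h2
                rw [hwc] at h4
                exact hE _ _ h5 h6 h4
            calc _ ≤ ∑ a ∈ ({w} : Finset (V × C)), (if a.2 = c then (1 : ℝ) else x a) := by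
                  apply Finset.sum_le_sum_of_subset_of_nonneg h1
                  intro a ha _
                  rw [mem_singleton] at ha
                  rw [ha, if_pos hwc]
                  exact zero_le_one
              _ = 1 := by
                  rw [Finset.sum_singleton, if_pos hwc]
              _ ≤ 1 := le_refl _
          · have h1 : ∑ a ∈ nb G (A.erase W) w, (if a.2 = c then (1 : ℝ) else x a)
                = ∑ a ∈ nb G (A.erase W) w, x a := by
              apply Finset.sum_congr rfl
              intro a ha
              rw [if_neg]
              rw [(mem_nb.mp ha).2.1]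
              exact hwc
            rw [h1, nb_erase]
            refine le_trans ?_ (hx1 w hw.2)
            apply Finset.sum_le_sum_of_subset_of_nonneg (erase_subset _ _)
            intro a ha _
            exact hx0 a (mem_nb.mp ha).1
        · intro c'
          by_cases h : c' = c
          · subst h
            have h1 : ∑ a ∈ (A.erase W).filter (fun a => a.2 = c'),
                (if a.2 = c' then (1 : ℝ) else x a) = ((A.erase W).filter (fun a => a.2 = c')).card := by
              rw [Finset.card_eq_sum_ones, Nat.cast_sum]
              apply Finset.sum_congr rfl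
              intro a ha
              rw [if_pos (mem_filter.mp ha).2, Nat.cast_one]
            rw [h1, filter_erase_eq, card_erase_of_mem hW]
            have h2 : t c' ≤ (A.filter (fun a => a.2 = c')).card - 1 := by omega
            have h3 : (t c' : ℝ) ≤ ((A.filter (fun a => a.2 = c')).card - 1 : ℕ) := by
              exact_mod_cast h2
            linarith
          · rw [filter_erase_ne _ _ _ (by rw [hW'.2]; exact h)]
            have h1 : ∑ a ∈ A.filter (fun a => a.2 = c'), (if a.2 = c then (1 : ℝ) else x a)
                = ∑ a ∈ A.filter (fun a => a.2 = c'), x a := by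
              apply Finset.sum_congr rfl
              intro a ha
              rw [if_neg]
              rw [(mem_filter.mp ha).2]
              exact h
            rw [h1]
            exact ht c'

end Pool.Agent.Helper51.PC
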