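import Pool.Agent.Helper51.PC.Acyc

/-!
# A homological Hall theorem over `ZMod 2`

helper51 for MP_c0e710_co (chordal graphs).
-/

namespace Pool.Agent.Helper51.PC

open Finset

variable {α V : Type*} [Fintype α] [DecidableEq α] [DecidableEq V]

/-- The faces of `K` all of whose vertices lie over `U`. -/
def Rst (K : Finset α → Prop) (p : α → V) (U : Finset V) : Finset α → Prop :=
  fun σ => K σ ∧ ∀ a ∈ σ, p a ∈ U

theorem sum_symm_zero {ι : Type*} [DecidableEq ι] (g : ι → ι → ZMod 2)
    (hg : ∀ a b, g a b = g b a) (U : Finset ι) : ∑ u ∈ U, ∑ v ∈ U.erase u, g u v = 0 := by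
  induction U using Finset.induction_on with
  | empty => simp
  | insert a U ha ih =>
    rw [Finset.sum_insert ha, erase_insert ha]
    have h1 : ∀ u ∈ U, ∑ v ∈ (insert a U).erase u, g u v = g u a + ∑ v ∈ U.erase u, g u v := by
      intro u hu
      have hau : a ≠ u := by
        rintro rfl
        exact ha hu
      rw [erase_insert_of_ne hau, Finset.sum_insert]
      rw [mem_erase]
      rintro ⟨_, h⟩
      exact ha h
    rw [Finset.sum_congr rfl h1, Finset.sum_add_distrib, ih, add_zero, ← Finset.sum_add_distrib]
    apply Finset.sum_eq_zero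
    intro u _
    rw [hg a u]
    exact zmod2_add_self _

theorem bd_sum {ι : Type*} (s : Finset ι) (f : ι → Finset α → ZMod 2) :
    bd (∑ i ∈ s, f i) = ∑ i ∈ s, bd (f i) := by
  classical
  induction s using Finset.induction_on with
  | empty =>
    funext τ
    simp [bd]
  | insert a s ha ih => rw [Finset.sum_insert ha, Finset.sum_insert ha, bd_add, ih]

theorem exists_system (K : Finset α → Prop) (p : α → V) (hK0 : K ∅)
    (h : ∀ U : Finset V, Acyc (Rst K p U) U.card) (m : ℕ) :
    ∃ τ : Finset V → Finset α → ZMod 2, τ ∅ = (fun σ => if σ = ∅ then 1 else 0) ∧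
      ∀ U : Finset V, U.card ≤ m →
        Supp (Rst K p U) U.card (τ U) ∧ (U.Nonempty → bd (τ U) = ∑ u ∈ U, τ (U.erase u)) := by
  classical
  induction m with
  | zero =>
    refine ⟨fun _ σ => if σ = ∅ then 1 else 0, rfl, ?_⟩
    intro U hU
    have hU' : U = ∅ := by
      rw [← card_eq_zero]
      omega
    subst hU'
    refine ⟨?_, fun h => absurd h (by simp)⟩
    intro σ hσ
    have h1 : σ = ∅ := by
      by_contra h1
      simp [h1] at hσ
    subst h1
    exact ⟨⟨hK0, by simp⟩, rfl⟩
  | succ m ih =>
    obtain ⟨τ, h0, hτ⟩ := ih
    have key : ∀ U : Finset V, U.card = m + 1 → ∃ y, Supp (Rst K p U) U.card y ∧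
        bd y = ∑ u ∈ U, τ (U.erase u) := by
      intro U hU
      have hs : Supp (Rst K p U) m (∑ u ∈ U, τ (U.erase u)) := by
        intro σ hσ
        rw [Finset.sum_apply] at hσ
        obtain ⟨u, hu, hne⟩ := Finset.exists_ne_zero_of_sum_ne_zero hσ
        have hc : (U.erase u).card = m := by
          rw [card_erase_of_mem hu, hU]
          rfl
        obtain ⟨⟨h1, h2⟩, h3⟩ := (hτ (U.erase u) (by omega)).1 σ hne
        exact ⟨⟨h1, fun a ha => mem_of_mem_erase (h2 a ha)⟩, by omega⟩
      have hb : bd (∑ u ∈ U, τ (U.erase u)) = 0 := by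
        rw [bd_sum]
        rcases Nat.eq_zero_or_pos m with hm | hm
        · apply Finset.sum_eq_zero
          intro u hu
          have hc : U.erase u = ∅ := by
            rw [← card_eq_zero, card_erase_of_mem hu, hU, hm]
          rw [hc, h0]
          funext τ'
          unfold bd
          apply Finset.sum_eq_zero
          intro a _
          exact if_neg (insert_ne_empty _ _)
        · have h1 : ∀ u ∈ U, bd (τ (U.erase u)) = ∑ v ∈ U.erase u, τ ((U.erase u).erase v) := by
            intro u hu
            have hc : (U.erase u).card = m := by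
              rw [card_erase_of_mem hu, hU]
              rfl
            apply (hτ (U.erase u) (by omega)).2
            rw [← card_pos]
            omega
          rw [Finset.sum_congr rfl h1]
          funext σ
          simp only [Finset.sum_apply, Pi.zero_apply]
          apply sum_symm_zero (fun u v => τ ((U.erase u).erase v) σ)
          intro a b
          rw [erase_right_comm]
      obtain ⟨y, hy, hby⟩ := h U m (by omega) _ hs hb
      rw [← hU] at hy
      exact ⟨y, hy, hby⟩
    choose! Y hY1 hY2 using key
    refine ⟨fun U => if U.card = m + 1 then Y U else τ U, ?_, ?_⟩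
    · simp only [card_empty]
      rw [if_neg (by omega)]
      exact h0
    · intro U hU
      by_cases hc : U.card = m + 1
      · simp only [hc, if_true]
        refine ⟨hc ▸ hY1 U hc, fun _ => ?_⟩
        rw [hY2 U hc]
        apply Finset.sum_congr rfl
        intro u hu
        have hc' : (U.erase u).card = m := by
          rw [card_erase_of_mem hu, hc]
          rfl
        rw [if_neg (by omega)]
      · have hU' : U.card ≤ m := by omega
        simp only [hc, if_false]
        refine ⟨(hτ U hU').1, fun hne => ?_⟩
        rw [(hτ U hU').2 hne]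
        apply Finset.sum_congr rfl
        intro u hu
        have hc' : (U.erase u).card < U.card := card_erase_lt_of_mem hu
        rw [if_neg (by omega)]

/-- The number of rainbow faces over `U`, modulo two. -/
def rb (p : α → V) (U : Finset V) (z : Finset α → ZMod 2) : ZMod 2 :=
  ∑ σ ∈ univ.filter (fun σ : Finset α => σ.card = U.card ∧ σ.image p = U), z σ

theorem rb_count (p : α → V) (U : Finset V) (u : V) (hu : u ∈ U) (σ : Finset α)
    (hσ : σ.card = U.card) (hp : ∀ a ∈ σ, p a ∈ U) :
    (((σ.filter (fun a => (σ.erase a).card = (U.erase u).card ∧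
      (σ.erase a).image p = U.erase u)).card : ℕ) : ZMod 2) = if σ.image p = U then 1 else 0 := by
  have hcU : (U.erase u).card = U.card - 1 := card_erase_of_mem hu
  have hUpos : 0 < U.card := card_pos.mpr ⟨u, hu⟩
  split_ifs with him
  · have hinj : Set.InjOn p σ := by
      rw [← card_image_iff, him, hσ]
    have hu' : u ∈ σ.image p := by
      rw [him]
      exact hu
    obtain ⟨a, ha, hau⟩ := mem_image.mp hu'
    have hf : σ.filter (fun a => (σ.erase a).card = (U.erase u).card ∧
        (σ.erase a).image p = U.erase u) = {a} := by
      ext b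
      rw [mem_filter, mem_singleton]
      constructor
      · rintro ⟨hb, _, h2⟩
        by_contra hba
        have h3 : u ∈ (σ.erase b).image p :=
          mem_image.mpr ⟨a, mem_erase.mpr ⟨fun h => hba h.symm, ha⟩, hau⟩
        rw [h2] at h3
        exact notMem_erase _ _ h3
      · rintro rfl
        refine ⟨ha, ?_, ?_⟩
        · rw [card_erase_of_mem ha, hcU, hσ]
        · ext w
          rw [mem_image, mem_erase]
          constructor
          · rintro ⟨e, he, rfl⟩
            rw [mem_erase] at he
            refine ⟨?_, hp e he.2⟩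
            intro h
            exact he.1 (hinj he.2 ha (h.trans hau.symm))
          · rintro ⟨hw1, hw2⟩
            rw [← him, mem_image] at hw2
            obtain ⟨e, he, rfl⟩ := hw2
            refine ⟨e, mem_erase.mpr ⟨?_, he⟩, rfl⟩
            rintro rfl
            exact hw1 hau
    rw [hf, card_singleton]
    simp
  · by_cases hne : (σ.filter (fun a => (σ.erase a).card = (U.erase u).card ∧
        (σ.erase a).image p = U.erase u)) = ∅
    · rw [hne]
      simp
    · obtain ⟨a, ha⟩ := nonempty_iff_ne_empty.mpr hne
      rw [mem_filter] at ha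
      obtain ⟨haσ, hac, hai⟩ := ha
      have hpau : p a ≠ u := by
        intro h
        apply him
        rw [← insert_erase haσ, image_insert, hai, h, insert_erase hu]
      have hpa : p a ∈ U.erase u := mem_erase.mpr ⟨hpau, hp a haσ⟩
      have hpa' := hpa
      rw [← hai, mem_image] at hpa'
      obtain ⟨b, hb, hba⟩ := hpa'
      have hbσ : b ∈ σ := mem_of_mem_erase hb
      have hbne : b ≠ a := ne_of_mem_erase hb
      have hinj : Set.InjOn p (σ.erase a : Finset α) := by
        rw [← card_image_iff, hai, hac]
      have hf : σ.filter (fun a => (σ.erase a).card = (U.erase u).card ∧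
          (σ.erase a).image p = U.erase u) = {a, b} := by
        ext c
        rw [mem_filter, mem_insert, mem_singleton]
        constructor
        · rintro ⟨hc, _, h2⟩
          by_contra hcon
          push Not at hcon
          have hca : c ∈ σ.erase a := mem_erase.mpr ⟨hcon.1, hc⟩
          have h3 : p c ∈ (σ.erase c).image p := by
            rw [h2, ← hai]
            exact mem_image_of_mem p hca
          obtain ⟨d, hd, hdc⟩ := mem_image.mp h3
          rw [mem_erase] at hd
          by_cases hda : d = a
          · subst hda
            exact hcon.2 (hinj hca hb (hdc.symm.trans hba.symm))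
          · exact hd.1 (hinj (mem_erase.mpr ⟨hda, hd.2⟩) hca hdc)
        · rintro (rfl | rfl)
          · exact ⟨haσ, hac, hai⟩
          · refine ⟨hbσ, ?_, ?_⟩
            · rw [card_erase_of_mem hbσ, hcU, hσ]
            · ext w
              rw [mem_image]
              constructor
              · rintro ⟨e, he, rfl⟩
                rw [mem_erase] at he
                by_cases hea : e = a
                · rw [hea]
                  exact hpa
                · rw [← hai]
                  exact mem_image_of_mem p (mem_erase.mpr ⟨hea, he.2⟩)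
              · intro hw
                rw [← hai, mem_image] at hw
                obtain ⟨e, he, rfl⟩ := hw
                by_cases heb : e = c
                · refine ⟨a, mem_erase.mpr ⟨hbne.symm, haσ⟩, ?_⟩
                  rw [heb, hba]
                · exact ⟨e, mem_erase.mpr ⟨heb, mem_of_mem_erase he⟩, rfl⟩
      rw [hf, card_pair hbne.symm]
      decide

theorem rb_bd (K : Finset α → Prop) (p : α → V) (U : Finset V) (u : V) (hu : u ∈ U)
    (z : Finset α → ZMod 2) (hz : Supp (Rst K p U) U.card z) :
    rb p (U.erase u) (bd z) = rb p U z := by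
  classical
  unfold rb bd
  rw [Finset.sum_sigma']
  have h1 : ∑ x ∈ (univ.filter (fun σ : Finset α => σ.card = (U.erase u).card ∧
        σ.image p = U.erase u)).sigma (fun σ => univ.filter (fun a => a ∉ σ)), z (insert x.2 x.1)
      = ∑ x ∈ (univ : Finset (Finset α)).sigma (fun σ => σ.filter (fun a =>
        (σ.erase a).card = (U.erase u).card ∧ (σ.erase a).image p = U.erase u)), z x.1 := by
    refine Finset.sum_bij' (fun x _ => ⟨insert x.2 x.1, x.2⟩) (fun x _ => ⟨x.1.erase x.2, x.2⟩)
      ?_ ?_ ?_ ?_ ?_
    · rintro ⟨σ, a⟩ hx
      simp only [mem_sigma, mem_filter, mem_univ, true_and] at hx ⊢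
      rw [erase_insert hx.2]
      exact ⟨mem_insert_self _ _, hx.1⟩
    · rintro ⟨σ, a⟩ hx
      simp only [mem_sigma, mem_filter, mem_univ, true_and] at hx ⊢
      exact ⟨hx.2, notMem_erase _ _⟩
    · rintro ⟨σ, a⟩ hx
      simp only [mem_sigma, mem_filter, mem_univ, true_and] at hx
      simp only [erase_insert hx.2]
    · rintro ⟨σ, a⟩ hx
      simp only [mem_sigma, mem_filter, mem_univ, true_and] at hx
      simp only [insert_erase hx.1]
    · rintro ⟨σ, a⟩ hx
      rfl
  rw [h1, Finset.sum_sigma, Finset.sum_filter]
  apply Finset.sum_congr rfl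
  intro σ _
  dsimp only
  rw [Finset.sum_const]
  by_cases h0 : z σ = 0
  · rw [h0]
    simp
  · obtain ⟨⟨_, h2⟩, h3⟩ := hz σ h0
    have h4 := rb_count p U u hu σ h3 h2
    rw [nsmul_eq_mul, h4]
    by_cases h5 : σ.image p = U
    · rw [if_pos h5, if_pos ⟨h3, h5⟩, one_mul]
    · rw [if_neg h5, if_neg (fun h => h5 h.2), zero_mul]

/-- **Homological Hall theorem**: if for every set `U` of parts the subcomplex over `U` is exact at
all levels below `|U|`, then there is a full rainbow face. -/
theorem hall [Fintype V] (K : Finset α → Prop) (p : α → V) (hK0 : K ∅)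
    (h : ∀ U : Finset V, Acyc (Rst K p U) U.card) :
    ∃ σ, K σ ∧ σ.card = Fintype.card V ∧ σ.image p = univ := by
  classical
  obtain ⟨τ, h0, hτ⟩ := exists_system K p hK0 h (Fintype.card V)
  have key : ∀ n, ∀ U : Finset V, U.card = n → rb p U (τ U) = 1 := by
    intro n
    induction n with
    | zero =>
      intro U hU
      rw [card_eq_zero] at hU
      subst hU
      rw [h0]
      unfold rb
      rw [Finset.sum_eq_single ∅]
      · simp
      · intro b _ hb
        rw [if_neg hb]
      · intro h
        exact absurd (by simp) h
    | succ n ih =>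
      intro U hU
      obtain ⟨u, hu⟩ : U.Nonempty := by
        rw [← card_pos]
        omega
      have hle : U.card ≤ Fintype.card V := card_le_univ U
      rw [← rb_bd K p U u hu (τ U) (hτ U hle).1, (hτ U hle).2 ⟨u, hu⟩]
      have h1 : rb p (U.erase u) (∑ v ∈ U, τ (U.erase v))
          = ∑ v ∈ U, rb p (U.erase u) (τ (U.erase v)) := by
        unfold rb
        simp only [Finset.sum_apply]
        rw [Finset.sum_comm]
      rw [h1, Finset.sum_eq_single u]
      · apply ih
        rw [card_erase_of_mem hu, hU]
        rfl
      · intro v hv hvu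
        unfold rb
        apply Finset.sum_eq_zero
        intro σ hσ
        rw [mem_filter] at hσ
        by_contra hne
        have h2 : (U.erase v).card ≤ Fintype.card V := card_le_univ _
        obtain ⟨⟨_, h3⟩, _⟩ := (hτ (U.erase v) h2).1 σ hne
        have h4 : v ∈ σ.image p := by
          rw [hσ.2.2]
          exact mem_erase.mpr ⟨hvu, hv⟩
        obtain ⟨a, ha, hav⟩ := mem_image.mp h4
        have h5 := h3 a ha
        rw [hav] at h5
        exact notMem_erase _ _ h5
      · intro h
        exact absurd hu h
  have h1 := key _ (univ : Finset V) rfl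
  unfold rb at h1
  have h2 : ∑ σ ∈ univ.filter (fun σ : Finset α => σ.card = (univ : Finset V).card ∧
      σ.image p = univ), τ univ σ ≠ 0 := by
    rw [h1]
    decide
  obtain ⟨σ, hσ, hne⟩ := Finset.exists_ne_zero_of_sum_ne_zero h2
  rw [mem_filter] at hσ
  exact ⟨σ, ((hτ univ (card_le_univ _)).1 σ hne).1.1, by rw [hσ.2.1, card_univ], hσ.2.2⟩

end Pool.Agent.Helper51.PC
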