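import Pool.Agent.Helper51.PC.Rounding

/-!
# Proportional list colourings of chordal graphs

helper51 for MP_c0e710_co (chordal graphs).
-/

namespace Pool.Agent.Helper51.PC

open Finset

variable {V : Type*} [Fintype V] [DecidableEq V]

/-- The disjoint union of `G` with a complete graph on `N` dummy vertices. -/
def dum (G : SimpleGraph V) (N : ℕ) : SimpleGraph (V ⊕ Fin N) where
  Adj a b := match a, b with
    | Sum.inl u, Sum.inl v => G.Adj u v
    | Sum.inr i, Sum.inr j => i ≠ j
    | _, _ => False
  symm := ⟨by
    intro a b h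
    rcases a with a | a <;> rcases b with b | b
    · exact SimpleGraph.Adj.symm (G := G) h
    · exact h
    · exact h
    · exact Ne.symm h⟩
  loopless := ⟨by
    intro a h
    rcases a with a | a
    · exact G.irrefl h
    · exact h rfl⟩

theorem dum_peo (G : SimpleGraph V) (hG : Peo G) (N : ℕ) : Peo (dum G N) := by
  intro S hS
  by_cases h : ∃ i : Fin N, Sum.inr i ∈ S
  · obtain ⟨i, hi⟩ := h
    refine ⟨Sum.inr i, hi, ?_⟩
    intro a _ b _ ha hb hab
    rcases a with a | a
    · exact absurd ha id
    · rcases b with b | b
      · exact absurd hb id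
      · exact fun h => hab (by rw [h])
  · push Not at h
    set T : Finset V := univ.filter (fun v => Sum.inl v ∈ S) with hT
    have hTne : T.Nonempty := by
      obtain ⟨a, ha⟩ := hS
      rcases a with a | a
      · exact ⟨a, by rw [hT, mem_filter]; exact ⟨mem_univ _, ha⟩⟩
      · exact absurd ha (h a)
    obtain ⟨v, hv, hv'⟩ := hG T hTne
    rw [hT, mem_filter] at hv
    refine ⟨Sum.inl v, hv.2, ?_⟩
    intro a ha b hb hva hvb hab
    rcases a with a | a
    · rcases b with b | b
      · exact hv' a (by rw [hT, mem_filter]; exact ⟨mem_univ _, ha⟩) b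
          (by rw [hT, mem_filter]; exact ⟨mem_univ _, hb⟩) hva hvb (fun h => hab (by rw [h]))
      · exact absurd hvb id
    · exact absurd hva id

/-- The proportional theorem with a finite type of colours. -/
theorem proportional_aux {C : Type*} [Fintype C] [DecidableEq C] (G : SimpleGraph V) (hG : Peo G)
    (k : ℕ) (hk0 : 1 ≤ k) (hk : ∀ v, (@Finset.filter V (fun u => G.Adj v u)
      (Classical.decPred _) univ).card + 1 ≤ k) (L : V → Finset C) (hL : ∀ v, (L v).card = k) :
    ∃ f : V → C, (∀ v, f v ∈ L v) ∧ (∀ u v, G.Adj u v → f u ≠ f v) ∧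
      ∀ c, ⌊((univ.filter (fun v => c ∈ L v)).card : ℝ) / k⌋₊ ≤ (univ.filter (fun v => f v = c)).card ∧
        (univ.filter (fun v => f v = c)).card ≤ ⌈((univ.filter (fun v => c ∈ L v)).card : ℝ) / k⌉₊ := by
  classical
  have hkpos : (0 : ℝ) < k := by exact_mod_cast hk0
  set η : C → ℕ := fun c => (univ.filter (fun v => c ∈ L v)).card with hη
  set Q : C → ℕ := fun c => ⌈(η c : ℝ) / k⌉₊ with hQ
  set φ : C → ℝ := fun c => (Q c : ℝ) - (η c : ℝ) / k with hφ
  have hφ0 : ∀ c, 0 ≤ φ c := fun c => sub_nonneg.mpr (Nat.le_ceil _)
  have hφ1 : ∀ c, φ c < 1 := by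
    intro c
    have := Nat.ceil_lt_add_one (show (0 : ℝ) ≤ (η c : ℝ) / k by positivity)
    simp only [hφ, hQ]
    linarith
  have hηsum : ∑ c, (η c : ℝ) = k * Fintype.card V := by
    have h1 : ∑ c, η c = ∑ v, (L v).card := by
      simp only [hη, card_eq_sum_ones, Finset.sum_filter]
      rw [Finset.sum_comm]
      apply Finset.sum_congr rfl
      intro v _
      rw [← Finset.sum_filter]
      apply Finset.sum_congr _ (fun _ _ => rfl)
      ext c
      simp
    have h2 : ∑ c, η c = k * Fintype.card V := by
      rw [h1, Finset.sum_congr rfl (fun v _ => hL v), Finset.sum_const, card_univ, smul_eq_mul,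
        mul_comm]
    have h3 : ((∑ c, η c : ℕ) : ℝ) = ((k * Fintype.card V : ℕ) : ℝ) := by rw [h2]
    push_cast at h3
    exact h3
  have hηk : ∑ c, (η c : ℝ) / k = Fintype.card V := by
    rw [← Finset.sum_div, hηsum]
    field_simp
  have hle : Fintype.card V ≤ ∑ c, Q c := by
    have h1 : (Fintype.card V : ℝ) ≤ ((∑ c, Q c : ℕ) : ℝ) := by
      rw [← hηk, Nat.cast_sum]
      exact Finset.sum_le_sum (fun c _ => Nat.le_ceil _)
    exact_mod_cast h1
  set N : ℕ := ∑ c, Q c - Fintype.card V with hN
  have hφsum : ∑ c, φ c = N := by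
    simp only [hφ]
    rw [Finset.sum_sub_distrib, hηk, hN, Nat.cast_sub hle, Nat.cast_sum]
  set x : V ⊕ Fin N → C → ℝ := fun a c => match a with
    | Sum.inl v => if c ∈ L v then 1 / (k : ℝ) else 0
    | Sum.inr _ => φ c / N with hx
  have hN0 : ∀ _ : Fin N, (0 : ℝ) < N := by
    intro i
    have : 0 < N := Nat.pos_of_ne_zero (fun h => by
      have := i.2
      omega)
    exact_mod_cast this
  have hmain := rounding' (dum G N) (dum_peo G hG N) Q x ?_ ?_ ?_ ?_
  · obtain ⟨f, h1, h2, h3⟩ := hmain
    have hclass : ∀ c, (univ.filter (fun a => f a = c)).card = Q c := by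
      have h4 : ∑ c, (univ.filter (fun a => f a = c)).card = ∑ c, Q c := by
        rw [← card_eq_sum_card_fiberwise (fun a _ => mem_univ (f a)), card_univ, Fintype.card_sum,
          Fintype.card_fin, hN]
        omega
      intro c
      exact (Finset.sum_eq_sum_iff_of_le (fun c _ => h3 c)).mp h4 c (mem_univ c)
    have hsplit : ∀ c, (univ.filter (fun a => f a = c)).card
        = (univ.filter (fun v => f (Sum.inl v) = c)).card
          + (univ.filter (fun i => f (Sum.inr i) = c)).card := by
      intro c
      simp only [card_eq_sum_ones, Finset.sum_filter, Fintype.sum_sum_type]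
    have hdum : ∀ c, (univ.filter (fun i => f (Sum.inr i) = c)).card ≤ 1 := by
      intro c
      rw [card_le_one]
      intro i hi j hj
      rw [mem_filter] at hi hj
      by_contra hij
      exact h2 (Sum.inr i) (Sum.inr j) hij (hi.2.trans hj.2.symm)
    have hdum0 : ∀ c, φ c = 0 → (univ.filter (fun i => f (Sum.inr i) = c)).card = 0 := by
      intro c hc
      rw [card_eq_zero, filter_eq_empty_iff]
      intro i _ hi
      have h4 := h1 (Sum.inr i)
      rw [hi] at h4
      simp only [hx, hc, zero_div, lt_irrefl] at h4
    refine ⟨fun v => f (Sum.inl v), ?_, ?_, ?_⟩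
    · intro v
      by_contra hv
      have h4 := h1 (Sum.inl v)
      simp only [hx, if_neg hv, lt_irrefl] at h4
    · intro u v huv
      exact h2 (Sum.inl u) (Sum.inl v) huv
    · intro c
      have h4 := hclass c
      have h5 := hsplit c
      have h6 := hdum c
      constructor
      · by_cases hc : φ c = 0
        · have h7 := hdum0 c hc
          have h8 : ((univ.filter (fun v => f (Sum.inl v) = c)).card : ℝ) = (η c : ℝ) / k := by
            have h9 : (univ.filter (fun v => f (Sum.inl v) = c)).card = Q c := by omega
            rw [h9]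
            simp only [hφ] at hc
            linarith
          apply Nat.floor_le_of_le
          rw [h8]
        · have h8 : (η c : ℝ) / k < Q c := by
            have := lt_of_le_of_ne (hφ0 c) (Ne.symm hc)
            simp only [hφ] at this
            linarith
          have h9 : ⌊(η c : ℝ) / k⌋₊ < Q c := (Nat.floor_lt (by positivity)).mpr h8
          change ⌊(η c : ℝ) / k⌋₊ ≤ (univ.filter (fun v => f (Sum.inl v) = c)).card
          omega
      · change (univ.filter (fun v => f (Sum.inl v) = c)).card ≤ Q c
        omega
  · intro a c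
    rcases a with v | i
    · simp only [hx]
      split_ifs
      · positivity
      · exact le_refl _
    · simp only [hx]
      exact div_nonneg (hφ0 c) (Nat.cast_nonneg _)
  · intro a c
    rcases a with v | i
    · rw [Fintype.sum_sum_type]
      have h4 : ∑ i : Fin N, @ite ℝ ((dum G N).Adj (Sum.inl v) (Sum.inr i)) (Classical.dec _)
          (x (Sum.inr i) c) 0 = 0 := by
        apply Finset.sum_eq_zero
        intro i _
        rw [if_neg]
        exact id
      rw [h4, add_zero]
      have h5 : ∀ u : V, @ite ℝ ((dum G N).Adj (Sum.inl v) (Sum.inl u)) (Classical.dec _)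
          (x (Sum.inl u) c) 0 ≤ if G.Adj v u then 1 / (k : ℝ) else 0 := by
        intro u
        have h6 : (dum G N).Adj (Sum.inl v) (Sum.inl u) ↔ G.Adj v u := Iff.rfl
        by_cases h7 : G.Adj v u
        · rw [if_pos (h6.mpr h7), if_pos h7]
          simp only [hx]
          split_ifs
          · exact le_refl _
          · positivity
        · rw [if_neg (fun h => h7 (h6.mp h)), if_neg h7]
      have h8 : x (Sum.inl v) c ≤ 1 / k := by
        simp only [hx]
        split_ifs
        · exact le_refl _
        · positivity
      have h9 : ∑ u : V, (if G.Adj v u then 1 / (k : ℝ) else 0)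
          = ((univ.filter (fun u => G.Adj v u)).card : ℝ) / k := by
        rw [← Finset.sum_filter, Finset.sum_const, nsmul_eq_mul]
        ring
      have h10 : ((univ.filter (fun u => G.Adj v u)).card : ℝ) + 1 ≤ k := by
        have := hk v
        have h11 : (@Finset.filter V (fun u => G.Adj v u) (Classical.decPred _) univ).card
            = (univ.filter (fun u => G.Adj v u)).card := by
          congr
        rw [h11] at this
        exact_mod_cast this
      calc x (Sum.inl v) c + ∑ u : V, @ite ℝ ((dum G N).Adj (Sum.inl v) (Sum.inl u))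
            (Classical.dec _) (x (Sum.inl u) c) 0
          ≤ 1 / k + ((univ.filter (fun u => G.Adj v u)).card : ℝ) / k := by
            rw [← h9]
            exact add_le_add h8 (Finset.sum_le_sum (fun u _ => h5 u))
        _ = (((univ.filter (fun u => G.Adj v u)).card : ℝ) + 1) / k := by ring
        _ ≤ 1 := by
            rw [div_le_one hkpos]
            exact h10
    · rw [Fintype.sum_sum_type]
      have h4 : ∑ u : V, @ite ℝ ((dum G N).Adj (Sum.inr i) (Sum.inl u)) (Classical.dec _)
          (x (Sum.inl u) c) 0 = 0 := by
        apply Finset.sum_eq_zero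
        intro u _
        rw [if_neg]
        exact id
      rw [h4, zero_add]
      have h5 : ∀ j : Fin N, @ite ℝ ((dum G N).Adj (Sum.inr i) (Sum.inr j)) (Classical.dec _)
          (x (Sum.inr j) c) 0 = if j = i then 0 else φ c / N := by
        intro j
        have h6 : (dum G N).Adj (Sum.inr i) (Sum.inr j) ↔ i ≠ j := Iff.rfl
        by_cases h7 : j = i
        · rw [if_neg (fun h => (h6.mp h) h7.symm), if_pos h7]
        · rw [if_pos (h6.mpr (fun h => h7 h.symm)), if_neg h7]
      rw [Finset.sum_congr rfl (fun j _ => h5 j)]
      have h8 : (φ c / N) + ∑ j : Fin N, (if j = i then 0 else φ c / N)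
          = ∑ j : Fin N, φ c / N := by
        rw [← Finset.add_sum_erase _ (fun j : Fin N => φ c / N) (mem_univ i),
          ← Finset.add_sum_erase _ (fun j : Fin N => if j = i then 0 else φ c / N) (mem_univ i)]
        simp only [if_true, zero_add]
        congr 1
        apply Finset.sum_congr rfl
        intro j hj
        rw [if_neg (ne_of_mem_erase hj)]
      have h9 : x (Sum.inr i) c = φ c / N := rfl
      rw [h9, h8, Finset.sum_const, card_univ, Fintype.card_fin, nsmul_eq_mul,
        mul_div_cancel₀ _ (hN0 i).ne']
      exact (hφ1 c).le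
  · intro a
    rcases a with v | i
    · have h4 : ∑ c, x (Sum.inl v) c = ∑ c ∈ L v, 1 / (k : ℝ) := by
        simp only [hx]
        rw [← Finset.sum_filter]
        apply Finset.sum_congr _ (fun _ _ => rfl)
        ext c
        simp
      rw [h4, Finset.sum_const, hL v, nsmul_eq_mul, mul_one_div_cancel hkpos.ne']
    · have h4 : ∑ c, x (Sum.inr i) c = (∑ c, φ c) / N := by
        simp only [hx]
        rw [Finset.sum_div]
      rw [h4, hφsum, div_self (hN0 i).ne']
  · intro c
    rw [Fintype.sum_sum_type]
    have h4 : ∑ v : V, x (Sum.inl v) c = (η c : ℝ) / k := by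
      simp only [hx]
      rw [← Finset.sum_filter, Finset.sum_const, nsmul_eq_mul]
      simp only [hη]
      ring
    have h5 : ∑ i : Fin N, x (Sum.inr i) c ≤ φ c := by
      have h6 : ∑ i : Fin N, x (Sum.inr i) c = N * (φ c / N) := by
        simp only [hx]
        rw [Finset.sum_const, card_univ, Fintype.card_fin, nsmul_eq_mul]
      rw [h6]
      by_cases h7 : (N : ℝ) = 0
      · rw [h7]
        simp only [zero_mul]
        exact hφ0 c
      · rw [mul_div_cancel₀ _ h7]
    rw [h4]
    have h8 : (Q c : ℝ) = (η c : ℝ) / k + φ c := by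
      simp only [hφ]
      ring
    rw [h8]
    linarith

end Pool.Agent.Helper51.PC
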