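import Pool.Agent.Helper51.PC.Chordal

/-!
# Rounding theorem for chordal graphs

helper51 for MP_c0e710_co (chordal graphs).
-/

namespace Pool.Agent.Helper51.PC

open Finset

variable {V C : Type*} [Fintype V] [DecidableEq V] [Fintype C] [DecidableEq C]

/-- Every nonempty set of vertices contains a vertex whose neighbours in the set are pairwise
adjacent (a perfect elimination ordering exists, the graph is chordal). -/
def Peo {V : Type*} (G : SimpleGraph V) : Prop :=
  ∀ S : Finset V, S.Nonempty → ∃ v ∈ S, ∀ a ∈ S, ∀ b ∈ S, G.Adj v a → G.Adj v b → a ≠ b → G.Adj a b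

theorem Rst_Kc (G : C → SimpleGraph V) (A : Finset (V × C)) (q : C → ℕ) (U : Finset V) :
    Rst (Kc G A q) Prod.fst U = Kc G (A.filter (fun a => a.1 ∈ U)) q := by
  funext σ
  apply propext
  constructor
  · rintro ⟨⟨h1, h2, h3⟩, h4⟩
    exact ⟨fun a ha => mem_filter.mpr ⟨h1 ha, h4 a ha⟩, h2, h3⟩
  · rintro ⟨h1, h2, h3⟩
    exact ⟨⟨fun a ha => (mem_filter.mp (h1 ha)).1, h2, h3⟩, fun a ha => (mem_filter.mp (h1 ha)).2⟩

/-- Weighted form: closed neighbourhood sums at most one in every colour, row sums at least one,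
column sums at most the capacities. -/
theorem rounding (G : C → SimpleGraph V) (hG : ∀ c, Peo (G c)) (A : Finset (V × C)) (q : C → ℕ)
    (x : V × C → ℝ) (hx0 : ∀ a ∈ A, 0 ≤ x a) (hx1 : ∀ w ∈ A, ∑ a ∈ nb G A w, x a ≤ 1)
    (hrow : ∀ v, 1 ≤ ∑ a ∈ A.filter (fun a => a.1 = v), x a)
    (hcol : ∀ c, ∑ a ∈ A.filter (fun a => a.2 = c), x a ≤ q c) :
    ∃ f : V → C, (∀ v, (v, f v) ∈ A) ∧ (∀ u v, f u = f v → ¬ (G (f u)).Adj u v) ∧
      ∀ c, (univ.filter (fun v => f v = c)).card ≤ q c := by
  classical
  have hH := hall (Kc G A q) Prod.fst ⟨empty_subset _, by simp, by simp⟩ ?_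
  · obtain ⟨σ, ⟨h1, h2, h3⟩, -, h5⟩ := hH
    have h6 : ∀ v, ∃ c, (v, c) ∈ σ := by
      intro v
      have h7 : v ∈ σ.image Prod.fst := by
        rw [h5]
        exact mem_univ v
      obtain ⟨a, ha, hav⟩ := mem_image.mp h7
      refine ⟨a.2, ?_⟩
      rw [← hav]
      exact ha
    choose f hf using h6
    refine ⟨f, fun v => h1 (hf v), ?_, ?_⟩
    · intro u v huv
      exact h2 (u, f u) (hf u) (v, f v) (hf v) huv
    · intro c
      refine le_trans ?_ (h3 c)
      apply card_le_card_of_injOn (fun v => (v, f v))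
      · intro v hv
        have hv' : f v = c := by simpa using hv
        exact mem_coe.mpr (mem_filter.mpr ⟨hf v, hv'⟩)
      · intro u _ v _ huv
        exact congrArg Prod.fst huv
  · intro U
    rw [Rst_Kc]
    set AU := A.filter (fun a => a.1 ∈ U) with hAU
    have hsub : AU ⊆ A := filter_subset _ _
    have hnn : ∀ c, 0 ≤ ∑ a ∈ AU.filter (fun a => a.2 = c), x a := by
      intro c
      apply Finset.sum_nonneg
      intro a ha
      exact hx0 a (hsub (mem_filter.mp ha).1)
    have hmain := acyc_main G hG _ AU rfl q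
      (fun c => ⌈∑ a ∈ AU.filter (fun a => a.2 = c), x a⌉₊) x (fun a ha => hx0 a (hsub ha)) ?_ ?_ ?_
    · apply hmain.mono
      have h1 : (U.card : ℝ) ≤ ∑ u ∈ U, ∑ a ∈ A.filter (fun a => a.1 = u), x a := by
        rw [card_eq_sum_ones, Nat.cast_sum]
        apply Finset.sum_le_sum
        intro u _
        rw [Nat.cast_one]
        exact hrow u
      have h2 : ∑ u ∈ U, ∑ a ∈ A.filter (fun a => a.1 = u), x a = ∑ a ∈ AU, x a := by
        have h3 : ∀ u ∈ U, A.filter (fun a => a.1 = u) = AU.filter (fun a => a.1 = u) := by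
          intro u hu
          ext a
          simp only [hAU, mem_filter]
          constructor
          · rintro ⟨h4, h5⟩
            exact ⟨⟨h4, by rw [h5]; exact hu⟩, h5⟩
          · rintro ⟨⟨h4, _⟩, h5⟩
            exact ⟨h4, h5⟩
        rw [Finset.sum_congr rfl (fun u hu => by rw [h3 u hu])]
        exact Finset.sum_fiberwise_of_maps_to (fun a ha => (mem_filter.mp ha).2) x
      have h4 : ∑ a ∈ AU, x a = ∑ c, ∑ a ∈ AU.filter (fun a => a.2 = c), x a :=
        (Finset.sum_fiberwise_of_maps_to (fun a _ => mem_univ a.2) x).symm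
      have h5 : (∑ c, ∑ a ∈ AU.filter (fun a => a.2 = c), x a)
          ≤ ((∑ c, ⌈∑ a ∈ AU.filter (fun a => a.2 = c), x a⌉₊ : ℕ) : ℝ) := by
        rw [Nat.cast_sum]
        apply Finset.sum_le_sum
        intro c _
        exact Nat.le_ceil _
      have h6 : (U.card : ℝ) ≤ ((∑ c, ⌈∑ a ∈ AU.filter (fun a => a.2 = c), x a⌉₊ : ℕ) : ℝ) := by
        rw [h2, h4] at h1
        exact h1.trans h5
      exact_mod_cast h6
    · intro w hw
      refine le_trans ?_ (hx1 w (hsub hw))
      apply Finset.sum_le_sum_of_subset_of_nonneg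
      · intro a ha
        rw [mem_nb] at ha ⊢
        exact ⟨hsub ha.1, ha.2⟩
      · intro a ha _
        exact hx0 a (mem_nb.mp ha).1
    · intro c
      apply Nat.ceil_le.mpr
      refine le_trans ?_ (hcol c)
      apply Finset.sum_le_sum_of_subset_of_nonneg (filter_subset_filter _ hsub)
      intro a ha _
      exact hx0 a (mem_filter.mp ha).1
    · intro c
      exact Nat.ceil_lt_add_one (hnn c)

/-- The same for a weight function `x v c`; the colour of `v` has positive weight. -/
theorem rounding' (G : SimpleGraph V) (hG : Peo G) (q : C → ℕ) (x : V → C → ℝ)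
    (hx0 : ∀ v c, 0 ≤ x v c)
    (hx1 : ∀ w c, (x w c + ∑ u, @ite ℝ (G.Adj w u) (Classical.dec _) (x u c) 0) ≤ 1)
    (hrow : ∀ v, 1 ≤ ∑ c, x v c) (hcol : ∀ c, ∑ v, x v c ≤ q c) :
    ∃ f : V → C, (∀ v, 0 < x v (f v)) ∧ (∀ u v, G.Adj u v → f u ≠ f v) ∧
      ∀ c, (univ.filter (fun v => f v = c)).card ≤ q c := by
  classical
  set A : Finset (V × C) := univ.filter (fun a => 0 < x a.1 a.2) with hA
  have hpos : ∀ a : V × C, a ∉ A → x a.1 a.2 = 0 := by
    intro a ha
    rw [hA, mem_filter] at ha
    push Not at ha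
    exact le_antisymm (ha (mem_univ a)) (hx0 _ _)
  have hmain := rounding (fun _ => G) (fun _ => hG) A q (fun a => x a.1 a.2)
    (fun a _ => hx0 _ _) ?_ ?_ ?_
  · obtain ⟨f, h1, h2, h3⟩ := hmain
    refine ⟨f, ?_, ?_, h3⟩
    · intro v
      have h4 := h1 v
      rw [hA, mem_filter] at h4
      exact h4.2
    · intro u v huv hfuv
      exact h2 u v hfuv huv
  · intro w _
    refine le_trans ?_ (hx1 w.1 w.2)
    have h4 : nb (fun _ => G) A w ⊆
        insert w ((univ.filter (fun u => G.Adj w.1 u)).image (fun u => (u, w.2))) := by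
      intro a ha
      obtain ⟨_, h5, h6 | h6⟩ := mem_nb.mp ha
      · exact mem_insert.mpr (Or.inl (Prod.ext h6 h5))
      · apply mem_insert_of_mem
        rw [mem_image]
        exact ⟨a.1, mem_filter.mpr ⟨mem_univ _, h6⟩, Prod.ext rfl h5.symm⟩
    have h7 : w ∉ (univ.filter (fun u => G.Adj w.1 u)).image (fun u => (u, w.2)) := by
      rw [mem_image]
      rintro ⟨u, hu, huw⟩
      rw [mem_filter] at hu
      have h8 : u = w.1 := congrArg Prod.fst huw
      rw [h8] at hu
      exact G.irrefl hu.2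
    calc ∑ a ∈ nb (fun _ => G) A w, x a.1 a.2
        ≤ ∑ a ∈ insert w ((univ.filter (fun u => G.Adj w.1 u)).image (fun u => (u, w.2))),
            x a.1 a.2 :=
          Finset.sum_le_sum_of_subset_of_nonneg h4 (fun a _ _ => hx0 _ _)
      _ = x w.1 w.2 + ∑ u ∈ univ.filter (fun u => G.Adj w.1 u), x u w.2 := by
          rw [Finset.sum_insert h7, Finset.sum_image]
          intro u _ v _ huv
          exact congrArg Prod.fst huv
      _ = x w.1 w.2 + ∑ u, @ite ℝ (G.Adj w.1 u) (Classical.dec _) (x u w.2) 0 := by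
          rw [Finset.sum_filter]
      _ ≤ _ := le_refl _
  · intro v
    refine (hrow v).trans (le_of_eq ?_)
    have h4 : ∑ a ∈ A.filter (fun a => a.1 = v), x a.1 a.2
        = ∑ a ∈ (univ : Finset (V × C)).filter (fun a => a.1 = v), x a.1 a.2 := by
      apply Finset.sum_subset
      · intro a ha
        rw [mem_filter] at ha ⊢
        exact ⟨mem_univ _, ha.2⟩
      · intro a ha ha'
        apply hpos
        intro h5
        exact ha' (mem_filter.mpr ⟨h5, (mem_filter.mp ha).2⟩)
    rw [h4, Finset.sum_filter, Fintype.sum_prod_type]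
    rw [Finset.sum_eq_single v]
    · apply Finset.sum_congr rfl
      intro c _
      rw [if_pos rfl]
    · intro b _ hb
      apply Finset.sum_eq_zero
      intro c _
      rw [if_neg hb]
    · intro h
      exact absurd (mem_univ v) h
  · intro c
    refine le_trans (le_of_eq ?_) (hcol c)
    have h4 : ∑ a ∈ A.filter (fun a => a.2 = c), x a.1 a.2
        = ∑ a ∈ (univ : Finset (V × C)).filter (fun a => a.2 = c), x a.1 a.2 := by
      apply Finset.sum_subset
      · intro a ha
        rw [mem_filter] at ha ⊢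
        exact ⟨mem_univ _, ha.2⟩
      · intro a ha ha'
        apply hpos
        intro h5
        exact ha' (mem_filter.mpr ⟨h5, (mem_filter.mp ha).2⟩)
    rw [h4, Finset.sum_filter, Fintype.sum_prod_type_right]
    rw [Finset.sum_eq_single c]
    · apply Finset.sum_congr rfl
      intro v _
      rw [if_pos rfl]
    · intro b _ hb
      apply Finset.sum_eq_zero
      intro v _
      rw [if_neg hb]
    · intro h
      exact absurd (mem_univ c) h

end Pool.Agent.Helper51.PC
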